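import Pool.Agent.H24.SCG.Base

/-!
Module IRR of the project SCG: adjacent generators do not commute.
-/

set_option autoImplicit false

namespace Pool.Agent.H26.SCG

open Matrix Pool.SCG

theorem comm_closure {G : Type} [Group G] {S : Set G} {y : G} (h : ∀ s ∈ S, s * y = y * s)
    {z : G} (hz : z ∈ Subgroup.closure S) : z * y = y * z := by
  have hle : Subgroup.closure S ≤ Subgroup.centralizer {y} := by
    rw [Subgroup.closure_le]
    intro s hs
    rw [SetLike.mem_coe, Subgroup.mem_centralizer_iff]
    intro w hw
    rw [Set.mem_singleton_iff.1 hw]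
    exact (h s hs).symm
  have := Subgroup.mem_centralizer_iff.1 (hle hz) y rfl
  exact this.symm

theorem irr_thm (hNC : NCStmt) : IRRStmt := by
  intro F _ _ hF r ρ hinv hcomm hall i j hij hcon
  obtain ⟨g, hg⟩ := hNC F hF (ρ i) (ρ j) (hinv i).1 (hinv j).1 (hinv i).2 (hinv j).2
  apply hg
  set A : Subgroup (Cor F) := Subgroup.closure (ρ '' {a | a ≤ i}) with hA
  have hab : ∀ a b : Fin r, a ≤ i → i < b → ρ a * ρ b = ρ b * ρ a := by
    intro a b ha hb
    rcases Nat.lt_or_ge (a.val + 1) b.val with h | h
    · exact hcomm a b h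
    · have h1 : a.val ≤ i.val := ha
      have h2 : i.val < b.val := hb
      have e1 : a = i := Fin.ext (by omega)
      have e2 : b = j := Fin.ext (by omega)
      rw [e1, e2]
      exact hcon
  have hAc : ∀ b : Fin r, i < b → ∀ w ∈ A, w * ρ b = ρ b * w := by
    intro b hb w hw
    refine comm_closure ?_ hw
    rintro _ ⟨a, ha, rfl⟩
    exact hab a b ha hb
  have hnorm : Subgroup.closure (Set.range ρ) ≤ Subgroup.normalizer (A : Set (Cor F)) := by
    rw [Subgroup.closure_le]
    rintro _ ⟨c, rfl⟩
    rw [SetLike.mem_coe]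
    by_cases hc : c ≤ i
    · exact Subgroup.le_normalizer (Subgroup.subset_closure ⟨c, hc, rfl⟩)
    · have hc' : i < c := lt_of_not_ge hc
      rw [Subgroup.mem_normalizer_iff]
      intro h
      constructor
      · intro hh
        have := hAc c hc' h hh
        have e : ρ c * h * (ρ c)⁻¹ = h := by rw [← this]; group
        rw [e]
        exact hh
      · intro hh
        have := hAc c hc' _ hh
        have e : h = ρ c * h * (ρ c)⁻¹ := by
          have e2 : ρ c * h = ρ c * (ρ c * h * (ρ c)⁻¹) := by
            rw [← this]; group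
          exact mul_left_cancel e2
        rw [e]
        exact hh
  have h1 : inn g * ρ i * (inn g)⁻¹ ∈ A := by
    have h2 := hnorm (hall g)
    rw [Subgroup.mem_normalizer_iff] at h2
    exact (h2 (ρ i)).1 (Subgroup.subset_closure ⟨i, (by simp : i ∈ {a | a ≤ i}), rfl⟩)
  exact hAc j (by
    show i.val < j.val
    omega) _ h1

end Pool.Agent.H26.SCG
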