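import Pool.Agent.H24.SCG.Base

/-!
Module LP of the project SCG: the concrete form of Lemma P.
-/

set_option autoImplicit false

namespace Pool.Agent.H26.SCG

open Matrix Pool.SCG OnePoint

variable {F : Type} [Field F]

/-- the closure map -/
noncomputable abbrev am (F : Type) [Field F] : F →+* AlgebraicClosure F := algebraMap F (AlgebraicClosure F)

open Classical in
theorem act_apply (g : GL (Fin 2) F) (y : Om F) :
    act F g y = (Matrix.GeneralLinearGroup.map (am F) g) • y := rfl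

theorem act_infty (g : GL (Fin 2) F) :
    act F g (∞ : Om F) = ∞ ↔ (g : Matrix (Fin 2) (Fin 2) F) 1 0 = 0 := by
  classical
  rw [act_apply, smul_infty_eq_self_iff]
  show am F ((g : Matrix (Fin 2) (Fin 2) F) 1 0) = 0 ↔ _
  exact _root_.map_eq_zero _

theorem act_infty_ne (g : GL (Fin 2) F) (h : (g : Matrix (Fin 2) (Fin 2) F) 1 0 ≠ 0) :
    act F g (∞ : Om F) = ((am F ((g : Matrix (Fin 2) (Fin 2) F) 0 0) /
      am F ((g : Matrix (Fin 2) (Fin 2) F) 1 0) : AlgebraicClosure F) : Om F) := by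
  classical
  rw [act_apply, smul_infty_eq_ite]
  have h' : (Matrix.GeneralLinearGroup.map (am F) g) 1 0 ≠ 0 := by
    show am F ((g : Matrix (Fin 2) (Fin 2) F) 1 0) ≠ 0
    exact (_root_.map_ne_zero _).2 h
  rw [if_neg h']
  rfl

theorem act_coe (g : GL (Fin 2) F) (k : AlgebraicClosure F)
    (h : am F ((g : Matrix (Fin 2) (Fin 2) F) 1 0) * k +
      am F ((g : Matrix (Fin 2) (Fin 2) F) 1 1) ≠ 0) :
    act F g (k : Om F) = (((am F ((g : Matrix (Fin 2) (Fin 2) F) 0 0) * k +
      am F ((g : Matrix (Fin 2) (Fin 2) F) 0 1)) / (am F ((g : Matrix (Fin 2) (Fin 2) F) 1 0) * k +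
      am F ((g : Matrix (Fin 2) (Fin 2) F) 1 1)) : AlgebraicClosure F) : Om F) := by
  classical
  rw [act_apply, smul_some_eq_ite]
  have h' : (Matrix.GeneralLinearGroup.map (am F) g) 1 0 * k +
      (Matrix.GeneralLinearGroup.map (am F) g) 1 1 ≠ 0 := h
  rw [if_neg h']
  rfl

theorem act_scalar {g : GL (Fin 2) F} {c : F}
    (h : (g : Matrix (Fin 2) (Fin 2) F) = !![c, 0; 0, c]) : act F g = 1 := by
  have hc : c ≠ 0 := by
    intro hc
    have := g.det_ne_zero
    rw [h, hc, det_fin_two] at this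
    simp at this
  have hc' : am F c ≠ 0 := (_root_.map_ne_zero _).2 hc
  ext y : 1
  induction y using OnePoint.rec with
  | infty =>
    rw [(act_infty g).2 (by rw [h]; simp)]
    rfl
  | coe k =>
    have h1 : am F ((g : Matrix (Fin 2) (Fin 2) F) 1 0) * k +
      am F ((g : Matrix (Fin 2) (Fin 2) F) 1 1) = am F c := by
      rw [h]
      simp
    rw [act_coe g k (by rw [h1]; exact hc'), h1, h]
    simp only [Matrix.of_apply, Matrix.cons_val', Matrix.cons_val_zero, Matrix.cons_val_one,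
      Matrix.cons_val_fin_one, map_zero, add_zero]
    rw [mul_div_cancel_left₀ _ hc']
    rfl

theorem act_ker {g : GL (Fin 2) F} (h : act F g = 1) :
    ∃ c : F, (g : Matrix (Fin 2) (Fin 2) F) = !![c, 0; 0, c] := by
  have h10 : (g : Matrix (Fin 2) (Fin 2) F) 1 0 = 0 := (act_infty g).1 (by rw [h]; rfl)
  have hdet := g.det_ne_zero
  rw [det_fin_two, h10, mul_zero, sub_zero] at hdet
  have h11 : (g : Matrix (Fin 2) (Fin 2) F) 1 1 ≠ 0 := right_ne_zero_of_mul hdet
  have hg : ∀ k : AlgebraicClosure F, am F ((g : Matrix (Fin 2) (Fin 2) F) 0 0) * k +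
      am F ((g : Matrix (Fin 2) (Fin 2) F) 0 1) = k * am F ((g : Matrix (Fin 2) (Fin 2) F) 1 1) := by
    intro k
    have e1 : am F ((g : Matrix (Fin 2) (Fin 2) F) 1 0) * k +
      am F ((g : Matrix (Fin 2) (Fin 2) F) 1 1) = am F ((g : Matrix (Fin 2) (Fin 2) F) 1 1) := by
      rw [h10, map_zero, zero_mul, zero_add]
    have e2 : am F ((g : Matrix (Fin 2) (Fin 2) F) 1 1) ≠ 0 := (_root_.map_ne_zero _).2 h11
    have h2 := act_coe g k (by rw [e1]; exact e2)
    rw [h, e1] at h2
    have h3 : (k : Om F) = _ := h2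
    rw [OnePoint.coe_eq_coe, eq_div_iff e2] at h3
    exact h3.symm
  have h0 := hg 0
  have h1 := hg 1
  rw [mul_zero, zero_add, zero_mul] at h0
  have h01 : (g : Matrix (Fin 2) (Fin 2) F) 0 1 = 0 := (_root_.map_eq_zero _).1 h0
  rw [h0, mul_one, add_zero, one_mul] at h1
  have h00 : (g : Matrix (Fin 2) (Fin 2) F) 0 0 = (g : Matrix (Fin 2) (Fin 2) F) 1 1 :=
    (am F).injective h1
  refine ⟨(g : Matrix (Fin 2) (Fin 2) F) 1 1, ?_⟩
  ext i j
  fin_cases i <;> fin_cases j <;> simp [h00, h01, h10]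

/-- the upper unitriangular matrix -/
def ug (c : F) : GL (Fin 2) F :=
  Matrix.GeneralLinearGroup.mkOfDetNeZero !![1, c; 0, 1] (by rw [det_fin_two]; simp)

theorem ug_coe (c : F) : (ug c : Matrix (Fin 2) (Fin 2) F) = !![1, c; 0, 1] := rfl

theorem ug_mul (c d : F) : ug c * ug d = ug (c + d) := by
  apply Units.ext
  rw [Units.val_mul, ug_coe, ug_coe, ug_coe, Matrix.mul_fin_two]
  ext i j
  fin_cases i <;> fin_cases j <;> simp [add_comm]

theorem ug_neg (c : F) : ug (-c) = (ug c)⁻¹ := by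
  rw [eq_inv_iff_mul_eq_one, ug_mul, neg_add_cancel]
  apply Units.ext
  rw [ug_coe]
  ext i j
  fin_cases i <;> fin_cases j <;> simp

/-- an involution in the stabiliser of infinity gives the diagonal involution -/
theorem stab [Finite F] (X : Subgroup (GL (Fin 2) F))
    {t w : GL (Fin 2) F} {τ β : F} (ht : t ∈ X) (hw : w ∈ X) (hτ : τ ≠ 1)
    (ht' : (t : Matrix (Fin 2) (Fin 2) F) = !![τ, 0; 0, 1])
    (hw' : (w : Matrix (Fin 2) (Fin 2) F) = !![1, β; 0, -1]) :
    ∃ g ∈ X, (g : Matrix (Fin 2) (Fin 2) F) = !![1, 0; 0, -1] := by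
  have hconj : ∀ c : F, ug c ∈ X → ug (τ * c) ∈ X := by
    intro c hc
    have e : t * ug c = ug (τ * c) * t := by
      apply Units.ext
      rw [Units.val_mul, Units.val_mul, ug_coe, ug_coe, ht', Matrix.mul_fin_two,
        Matrix.mul_fin_two]
      ext i j
      fin_cases i <;> fin_cases j <;> simp
    have e2 : ug (τ * c) = t * ug c * t⁻¹ := by rw [e, mul_inv_cancel_right]
    rw [e2]
    exact X.mul_mem (X.mul_mem ht hc) (X.inv_mem ht)
  let S : Type := {c : F // ug c ∈ X}
  let f : S → S := fun c => ⟨τ * c.1 + -c.1, by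
    rw [← ug_mul, ug_neg]
    exact X.mul_mem (hconj _ c.2) (X.inv_mem c.2)⟩
  have hf : Function.Injective f := by
    intro a b h
    have h1 : τ * a.1 + -a.1 = τ * b.1 + -b.1 := congrArg Subtype.val h
    have h3 : (τ - 1) * (a.1 - b.1) = 0 := by linear_combination h1
    rcases mul_eq_zero.1 h3 with h4 | h4
    · exact absurd (sub_eq_zero.1 h4) hτ
    · exact Subtype.ext (sub_eq_zero.1 h4)
  have hsur : Function.Surjective f := Finite.injective_iff_surjective.1 hf
  have hmem : ug ((τ - 1) * β) ∈ X := by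
    have e : w * t * w = ug ((τ - 1) * β) * t := by
      apply Units.ext
      rw [Units.val_mul, Units.val_mul, Units.val_mul, ug_coe, ht', hw', Matrix.mul_fin_two,
        Matrix.mul_fin_two, Matrix.mul_fin_two]
      ext i j
      fin_cases i <;> fin_cases j <;> simp
      ring
    have e2 : ug ((τ - 1) * β) = w * t * w * t⁻¹ := by rw [e, mul_inv_cancel_right]
    rw [e2]
    exact X.mul_mem (X.mul_mem (X.mul_mem hw ht) hw) (X.inv_mem ht)
  obtain ⟨a, ha⟩ := hsur ⟨_, hmem⟩
  have ha' : τ * a.1 + -a.1 = (τ - 1) * β := congrArg Subtype.val ha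
  have hab : a.1 = β := by
    have h3 : (τ - 1) * (a.1 - β) = 0 := by linear_combination ha'
    rcases mul_eq_zero.1 h3 with h4 | h4
    · exact absurd (sub_eq_zero.1 h4) hτ
    · exact sub_eq_zero.1 h4
  have hβ : ug (-β) ∈ X := by
    rw [ug_neg, ← hab]
    exact X.inv_mem a.2
  refine ⟨w * ug (-β), X.mul_mem hw hβ, ?_⟩
  rw [Units.val_mul, ug_coe, hw', Matrix.mul_fin_two]
  ext i j
  fin_cases i <;> fin_cases j <;> simp

theorem lp_thm (hZPP : ZPPStmt) (hZAX : ZAXStmt) : LPStmt := by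
  intro F _ _ h2 X N hNX hidx hsc x1 t g0 p r τ hx1 hx1N ht hg0 hx1' ht' hodd hfive h00 h10
  by_contra hcon
  have hZ := hZAX F h2 X
  have hτ1 : τ ≠ 1 := by
    rintro rfl
    rw [orderOf_one] at hfive
    omega
  have hr : r ≠ 0 := by
    intro hr
    have := x1.det_ne_zero
    rw [hx1', hr, det_fin_two] at this
    simp at this
  let K := X.map (act F)
  have hfin : Finite K := by
    refine Finite.of_surjective
      (fun x : X => (⟨act F x.1, Subgroup.mem_map_of_mem _ x.2⟩ : K)) ?_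
    rintro ⟨y, hy⟩
    obtain ⟨x, hx, rfl⟩ := Subgroup.mem_map.1 hy
    exact ⟨⟨x, hx⟩, rfl⟩
  let N' : Subgroup K := (N.map (act F)).subgroupOf K
  have hN' : ∀ (g : GL (Fin 2) F) (hg : g ∈ X),
      (⟨act F g, Subgroup.mem_map_of_mem _ hg⟩ : K) ∈ N' ↔ g ∈ N := by
    intro g hg
    rw [Subgroup.mem_subgroupOf]
    constructor
    · intro h
      obtain ⟨n, hn, he⟩ := Subgroup.mem_map.1 h
      have he' : act F n = act F g := he
      have h3 : act F (g * n⁻¹) = 1 := by
        rw [map_mul, map_inv, he', mul_inv_cancel]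
      obtain ⟨c, hc⟩ := act_ker h3
      have h4 := hsc _ c hc
      have h5 := N.mul_mem h4 hn
      rwa [inv_mul_cancel_right] at h5
    · intro h
      exact Subgroup.mem_map_of_mem _ h
  have hidx' : ∀ x y : K, x ∉ N' → y ∉ N' → x * y ∈ N' := by
    rintro ⟨x, hx⟩ ⟨y, hy⟩ hxN hyN
    obtain ⟨a, ha, rfl⟩ := Subgroup.mem_map.1 hx
    obtain ⟨b, hb, rfl⟩ := Subgroup.mem_map.1 hy
    have h3 := hidx a ha b hb (fun h => hxN ((hN' a ha).2 h)) (fun h => hyN ((hN' b hb).2 h))
    have h4 := (hN' (a * b) (X.mul_mem ha hb)).2 h3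
    have h5 : (⟨act F (a * b), Subgroup.mem_map_of_mem _ (X.mul_mem ha hb)⟩ : K)
        = ⟨act F a, hx⟩ * ⟨act F b, hy⟩ := Subtype.ext (map_mul _ _ _)
    rwa [h5] at h4
  have h0inf : ((0 : AlgebraicClosure F) : Om F) ≠ ∞ := OnePoint.coe_ne_infty _
  have htpow : ∀ n : ℕ, ((t ^ n : GL (Fin 2) F) : Matrix (Fin 2) (Fin 2) F)
      = !![τ ^ n, 0; 0, 1] := by
    intro n
    induction n with
    | zero =>
      ext i j
      fin_cases i <;> fin_cases j <;> simp
    | succ n ih =>
      rw [pow_succ, Units.val_mul, ih, ht', Matrix.mul_fin_two]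
      ext i j
      fin_cases i <;> fin_cases j <;> simp [pow_succ]
  have hord : orderOf (⟨act F t, Subgroup.mem_map_of_mem _ ht⟩ : K) = orderOf τ := by
    rw [orderOf_eq_orderOf_iff]
    intro n
    have e : (⟨act F t, Subgroup.mem_map_of_mem _ ht⟩ : K) ^ n = 1 ↔ act F (t ^ n) = 1 := by
      rw [map_pow]
      exact Subtype.ext_iff
    rw [e]
    constructor
    · intro h
      obtain ⟨c, hc⟩ := act_ker h
      rw [htpow] at hc
      have e1 := congrFun (congrFun hc 0) 0
      have e2 := congrFun (congrFun hc 1) 1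
      simp at e1 e2
      rw [e1, e2]
    · intro h
      apply act_scalar (c := 1)
      rw [htpow, h]
  refine hZPP K (Om F) hZ N' hidx' ∞ ((0 : AlgebraicClosure F) : Om F)
    ⟨act F x1, Subgroup.mem_map_of_mem _ hx1⟩ ⟨act F t, Subgroup.mem_map_of_mem _ ht⟩
    ⟨act F g0, Subgroup.mem_map_of_mem _ hg0⟩ h0inf.symm
    (fun h => hx1N ((hN' x1 hx1).1 h)) ?_ ?_ ?_ ?_ ?_ ?_ ?_ ?_ ?_
  · apply Subtype.ext
    show act F x1 * act F x1 = 1
    rw [← map_mul]
    apply act_scalar (c := p * r)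
    rw [Units.val_mul, hx1', Matrix.mul_fin_two]
    ext i j
    fin_cases i <;> fin_cases j <;> simp [mul_comm]
  · show act F x1 ∞ = _
    have h3 : (x1 : Matrix (Fin 2) (Fin 2) F) 1 0 ≠ 0 := by rw [hx1']; simpa using hr
    rw [act_infty_ne _ h3, hx1']
    simp
  · show act F t ∞ = _
    rw [act_infty, ht']
    simp
  · show act F t ((0 : AlgebraicClosure F) : Om F) = _
    have h3 : am F ((t : Matrix (Fin 2) (Fin 2) F) 1 0) * 0 +
      am F ((t : Matrix (Fin 2) (Fin 2) F) 1 1) ≠ 0 := by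
      rw [ht']
      simp
    rw [act_coe t 0 h3, ht']
    simp
  · rw [hord]; exact hodd
  · rw [hord]; exact hfive
  · show ¬ act F g0 ∞ = _
    rw [act_infty]
    exact h10
  · show ¬ act F g0 ∞ = _
    rw [act_infty_ne _ h10, OnePoint.coe_eq_coe, div_eq_zero_iff]
    rintro (h | h)
    · exact h00 ((_root_.map_eq_zero _).1 h)
    · exact h10 ((_root_.map_eq_zero _).1 h)
  · rintro ⟨s, hs⟩ hfix hsq
    obtain ⟨γ, hγ, rfl⟩ := Subgroup.mem_map.1 hs
    apply Subtype.ext
    show act F γ = 1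
    have hfix' : act F γ ∞ = ∞ := hfix
    have hsq' : act F (γ * γ) = 1 := by
      rw [map_mul]
      exact congrArg Subtype.val hsq
    rw [act_infty] at hfix'
    obtain ⟨c, hc⟩ := act_ker hsq'
    obtain ⟨a, b, d, hγ'⟩ : ∃ a b d : F, (γ : Matrix (Fin 2) (Fin 2) F) = !![a, b; 0, d] := by
      refine ⟨(γ : Matrix (Fin 2) (Fin 2) F) 0 0, (γ : Matrix (Fin 2) (Fin 2) F) 0 1,
        (γ : Matrix (Fin 2) (Fin 2) F) 1 1, ?_⟩
      ext i j
      fin_cases i <;> fin_cases j <;> simp [hfix']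
    rw [Units.val_mul, hγ', Matrix.mul_fin_two] at hc
    have e1 := congrFun (congrFun hc 0) 0
    have e2 := congrFun (congrFun hc 0) 1
    have e3 := congrFun (congrFun hc 1) 1
    simp at e1 e2 e3
    have hdet := γ.det_ne_zero
    rw [hγ', det_fin_two] at hdet
    simp at hdet
    have h3 : (a - d) * (a + d) = 0 := by linear_combination e1 - e3
    rcases mul_eq_zero.1 h3 with h4 | h4
    · have had : a = d := sub_eq_zero.1 h4
      have hb : b = 0 := by
        have h5 : (2 * a) * b = 0 := by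
          rw [← had] at e2
          linear_combination e2
        exact (mul_eq_zero.1 h5).resolve_left (mul_ne_zero h2 hdet.1)
      apply act_scalar (c := a)
      rw [hγ', hb, had]
    · exfalso
      apply hcon
      have had : d = -a := by linear_combination h4
      have ha : a ≠ 0 := hdet.1
      let sc : GL (Fin 2) F := Matrix.GeneralLinearGroup.mkOfDetNeZero !![a⁻¹, 0; 0, a⁻¹] (by
        rw [det_fin_two]
        simp [ha])
      have hscX : sc ∈ X := hNX (hsc sc a⁻¹ rfl)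
      refine stab X (t := t) (w := γ * sc) (τ := τ)
        (β := b * a⁻¹) ht (X.mul_mem hγ hscX) hτ1 ht' ?_
      rw [Units.val_mul, hγ']
      show !![a, b; 0, d] * !![a⁻¹, 0; 0, a⁻¹] = _
      rw [Matrix.mul_fin_two, had]
      ext i j
      fin_cases i <;> fin_cases j <;> simp [ha]

end Pool.Agent.H26.SCG
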