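import Pool.Agent.H24.SCG.Base

/-!
Module NC of the project SCG: an involution does not commute with all conjugates of an involution.
-/

set_option autoImplicit false

namespace Pool.Agent.H26.SCG

open Matrix Pool.SCG

variable {F : Type} [Field F]

/-- all conjugates of `z` under `SL3` commute with `y` -/
def Q (y z : Cor F) : Prop :=
  ∀ g : SL3 F, (inn g * z * (inn g)⁻¹) * y = y * (inn g * z * (inn g)⁻¹)

theorem Q_mul {y z w : Cor F} (hz : Q y z) (hw : Q y w) : Q y (z * w) := by
  intro g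
  have e : inn g * (z * w) * (inn g)⁻¹
      = (inn g * z * (inn g)⁻¹) * (inn g * w * (inn g)⁻¹) := by group
  rw [e]
  have h1 := hz g
  have h2 := hw g
  generalize inn g * z * (inn g)⁻¹ = a at *
  generalize inn g * w * (inn g)⁻¹ = b at *
  calc a * b * y = a * (b * y) := mul_assoc _ _ _
    _ = a * (y * b) := by rw [h2]
    _ = (a * y) * b := (mul_assoc _ _ _).symm
    _ = (y * a) * b := by rw [h1]
    _ = _ := mul_assoc _ _ _

theorem Q_conj {y z : Cor F} (h : SL3 F) (hz : Q y z) : Q y (inn h * z * (inn h)⁻¹) := by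
  intro g
  have e : inn g * (inn h * z * (inn h)⁻¹) * (inn g)⁻¹
      = inn (g * h) * z * (inn (g * h))⁻¹ := by
    rw [inn_mul]; group
  rw [e]
  exact hz (g * h)

theorem is_inn (g : SL3 F) : Is (inn g) false (g : M3 F) := ⟨rfl, rfl⟩

theorem exists_dual {v : Fin 3 → F} (hv : v ≠ 0) (c : F) : ∃ p : Fin 3 → F, v ⬝ᵥ p = c := by
  obtain ⟨i, hi⟩ := Function.ne_iff.1 hv
  refine ⟨Pi.single i ((v i)⁻¹ * c), ?_⟩
  rw [dotProduct_single, ← mul_assoc, mul_inv_cancel₀ hi, one_mul]

/-- every transvection is conjugate to a fixed one -/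
theorem exists_basis {v l : Fin 3 → F} (hv : v ≠ 0) (hl : l ≠ 0) (hlv : l ⬝ᵥ v = 0) :
    ∃ P : SL3 F, (1 + vecMulVec v l) * (P : M3 F) = (P : M3 F) * !![1, -1, 0; 0, 1, 0; 0, 0, 1] := by
  obtain ⟨p, hp⟩ := exists_dual hv 1
  obtain ⟨w, hw⟩ := exists_dual hl (-1)
  have hp' : v 0 * p 0 + v 1 * p 1 + v 2 * p 2 = 1 := by
    simpa [dotProduct, Fin.sum_univ_three] using hp
  have hw' : l 0 * w 0 + l 1 * w 1 + l 2 * w 2 = -1 := by
    simpa [dotProduct, Fin.sum_univ_three] using hw
  have hlv' : l 0 * v 0 + l 1 * v 1 + l 2 * v 2 = 0 := by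
    simpa [dotProduct, Fin.sum_univ_three] using hlv
  refine ⟨⟨!![v 0, w 0, l 1 * p 2 - l 2 * p 1; v 1, w 1, l 2 * p 0 - l 0 * p 2;
    v 2, w 2, l 0 * p 1 - l 1 * p 0], ?_⟩, ?_⟩
  · rw [Matrix.det_fin_three]
    simp only [Matrix.of_apply, Matrix.cons_val', Matrix.cons_val_zero, Matrix.cons_val_one,
      Matrix.cons_val]
    have : (v 0 * l 0 + v 1 * l 1 + v 2 * l 2) * (w 0 * p 0 + w 1 * p 1 + w 2 * p 2)
      - (v 0 * p 0 + v 1 * p 1 + v 2 * p 2) * (l 0 * w 0 + l 1 * w 1 + l 2 * w 2) = 1 := by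
      rw [hp', hw']
      linear_combination (w 0 * p 0 + w 1 * p 1 + w 2 * p 2) * hlv'
    linear_combination this
  · ext i j
    fin_cases i <;> fin_cases j <;>
      simp [Matrix.mul_apply, Fin.sum_univ_three, vecMulVec_apply, Matrix.add_apply] <;>
      first
      | linear_combination (v 0) * hlv'
      | linear_combination (v 1) * hlv'
      | linear_combination (v 2) * hlv'
      | linear_combination (v 0) * hw'
      | linear_combination (v 1) * hw'
      | linear_combination (v 2) * hw'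
      | ring

theorem det_trv {v l : Fin 3 → F} (hlv : l ⬝ᵥ v = 0) : (1 + vecMulVec v l : M3 F).det = 1 := by
  have hlv' : l 0 * v 0 + l 1 * v 1 + l 2 * v 2 = 0 := by
    simpa [dotProduct, Fin.sum_univ_three] using hlv
  rw [Matrix.det_fin_three]
  simp only [Matrix.add_apply, vecMulVec_apply, Matrix.one_apply]
  simp
  linear_combination hlv'

theorem key {y z : Cor F} {v l : Fin 3 → F} (hv : v ≠ 0) (hl : l ≠ 0) (hlv : l ⬝ᵥ v = 0)
    (hz : Is z false (1 + vecMulVec v l)) (hQ : Q y z) {x : Cor F} {u m : Fin 3 → F}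
    (hu : u ≠ 0) (hm : m ≠ 0) (hmu : m ⬝ᵥ u = 0) (hx : Is x false (1 + vecMulVec u m)) :
    x * y = y * x := by
  obtain ⟨P, hP⟩ := exists_basis hv hl hlv
  obtain ⟨R, hR⟩ := exists_basis hu hm hmu
  obtain ⟨e, he⟩ := exists_is false (!![1, -1, 0; 0, 1, 0; 0, 0, 1] : M3 F) (by
    rw [Matrix.det_fin_three]; simp)
  have h1 : z * inn P = inn P * e := by
    have a1 := hz.mul_inner (is_inn P)
    have a2 := (is_inn P).mul_inner he
    rw [hP] at a1
    exact a1.ext a2
  have h2 : x * inn R = inn R * e := by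
    have a1 := hx.mul_inner (is_inn R)
    have a2 := (is_inn R).mul_inner he
    rw [hR] at a1
    exact a1.ext a2
  have h3 : inn (R * P⁻¹) = inn R * (inn P)⁻¹ := by
    rw [eq_mul_inv_iff_mul_eq, ← inn_mul]
    congr 1
    group
  have h4 : x = inn (R * P⁻¹) * z * (inn (R * P⁻¹))⁻¹ := by
    rw [h3]
    have h5 : z = inn P * e * (inn P)⁻¹ := by rw [← h1]; group
    have h6 : x = inn R * e * (inn R)⁻¹ := by rw [← h2]; group
    rw [h5]
    nth_rewrite 1 [h6]
    group
  rw [h4]
  exact hQ _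

theorem single_vmv (i j : Fin 3) :
    vecMulVec (Pi.single i (1 : F)) (Pi.single j 1) = Matrix.single i j (1 : F) := by
  ext a b
  rw [vecMulVec_apply, Matrix.single_apply, Pi.single_apply, Pi.single_apply]
  by_cases h1 : i = a
  · by_cases h2 : j = b
    · rw [if_pos h1.symm, if_pos h2.symm, if_pos ⟨h1, h2⟩, one_mul]
    · have h3 : ¬ b = j := fun h => h2 h.symm
      rw [if_neg h3, mul_zero, if_neg (fun h => h2 h.2)]
  · rw [if_neg (fun h => h1 h.symm), zero_mul, if_neg (fun h => h1 h.1)]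

/-- an element commuting with all conjugates of a transvection is trivial -/
theorem final {y z : Cor F} (hF : ∀ x : F, x ^ 3 = 1 → x = 1) {v l : Fin 3 → F} (hv : v ≠ 0)
    (hl : l ≠ 0) (hlv : l ⬝ᵥ v = 0)
    (hz : Is z false (1 + vecMulVec v l)) (hQ : Q y z) : y = 1 := by
  have hall : ∀ i j : Fin 3, i ≠ j → ∃ x : Cor F, Is x false (1 + Matrix.single i j (1 : F)) ∧
      x * y = y * x := by
    intro i j hij
    have h0 : (Pi.single j (1 : F) : Fin 3 → F) ⬝ᵥ Pi.single i 1 = 0 := by
      rw [dotProduct_single, Pi.single_apply, if_neg hij, zero_mul]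
    have hd := det_trv (F := F) (v := Pi.single i (1 : F)) (l := Pi.single j 1) h0
    obtain ⟨x, hx⟩ := exists_is false _ hd
    refine ⟨x, by rw [← single_vmv]; exact hx, ?_⟩
    exact key hv hl hlv hz hQ (by simp) (by simp) h0 hx
  cases hs : y.s with
  | false =>
    have hy : Is y false (y.m : M3 F) := ⟨hs, rfl⟩
    have hc : (y.m : M3 F) ∈ Set.range (Matrix.scalar (Fin 3)) := by
      apply Matrix.mem_range_scalar_of_commute_single
      intro i j hij
      obtain ⟨x, hx, hxy⟩ := hall i j hij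
      have := (comm_inner_iff hx hy).1 hxy
      rw [add_mul, mul_add, one_mul, mul_one] at this
      exact add_left_cancel this
    obtain ⟨c, hc⟩ := hc
    have hdet : (y.m : M3 F).det = 1 := y.m.2
    rw [← hc] at hdet
    simp only [Matrix.scalar_apply, Matrix.det_diagonal, Finset.prod_const, Finset.card_univ,
      Fintype.card_fin] at hdet
    have hc1 := hF c hdet
    rw [hc1] at hc
    have : Is y false 1 := ⟨hs, by rw [← hc]; simp⟩
    exact this.ext is_one
  | true =>
    exfalso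
    have hy : Is y true (y.m : M3 F) := ⟨hs, rfl⟩
    have hdet : (y.m : M3 F).det = 1 := y.m.2
    obtain ⟨x1, hx1, hxy1⟩ := hall 0 1 (by decide)
    obtain ⟨x2, hx2, hxy2⟩ := hall 0 2 (by decide)
    have e1 := (comm_inner_outer_iff hx1 hy).1 hxy1
    have e2 := (comm_inner_outer_iff hx2 hy).1 hxy2
    generalize (y.m : M3 F) = Y at *
    have a1 := congrFun (congrFun e1 0) 1
    have a2 := congrFun (congrFun e1 1) 2
    have a3 := congrFun (congrFun e2 2) 1
    simp [Matrix.mul_apply, Fin.sum_univ_three, Matrix.single_apply, Matrix.one_apply] at a1 a2 a3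
    rw [Matrix.det_fin_three, a1, a2, a3] at hdet
    simp at hdet

/-- a quadratic form in three variables over a finite field has a zero -/
theorem exists_iso [Finite F] (B : M3 F) : ∃ v : Fin 3 → F, v ≠ 0 ∧ v ⬝ᵥ (B *ᵥ v) = 0 := by
  classical
  have : Fintype F := Fintype.ofFinite F
  obtain ⟨p, hp⟩ := CharP.exists F
  have : Fact p.Prime := ⟨(CharP.char_is_prime_or_zero F p).resolve_right (by
    intro h
    exact CharP.char_ne_zero_of_finite F p h)⟩
  let f : MvPolynomial (Fin 3) F :=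
    ∑ i : Fin 3, ∑ j : Fin 3, MvPolynomial.C (B i j) * (MvPolynomial.X i * MvPolynomial.X j)
  have hdeg : f.totalDegree < Fintype.card (Fin 3) := by
    have : f.totalDegree ≤ 2 := by
      refine (MvPolynomial.totalDegree_finsetSum _ _).trans ?_
      refine Finset.sup_le fun i _ => ?_
      refine (MvPolynomial.totalDegree_finsetSum _ _).trans ?_
      refine Finset.sup_le fun j _ => ?_
      refine (MvPolynomial.totalDegree_mul _ _).trans ?_
      rw [MvPolynomial.totalDegree_C, zero_add]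
      refine (MvPolynomial.totalDegree_mul _ _).trans ?_
      rw [MvPolynomial.totalDegree_X, MvPolynomial.totalDegree_X]
    simpa using Nat.lt_succ_of_le this
  have heval : ∀ v : Fin 3 → F, MvPolynomial.eval v f = v ⬝ᵥ (B *ᵥ v) := by
    intro v
    simp only [f, map_sum, map_mul, MvPolynomial.eval_C, MvPolynomial.eval_X, dotProduct,
      mulVec, Finset.mul_sum]
    refine Finset.sum_congr rfl fun i _ => Finset.sum_congr rfl fun j _ => ?_
    ring
  have hdvd := char_dvd_card_solutions p hdeg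
  by_contra hcon
  push Not at hcon
  have hone : Fintype.card { x : Fin 3 → F // MvPolynomial.eval x f = 0 } = 1 := by
    rw [Fintype.card_eq_one_iff]
    refine ⟨⟨0, by rw [heval]; simp⟩, ?_⟩
    rintro ⟨x, hx⟩
    apply Subtype.ext
    by_contra h
    exact hcon x h (by rw [← heval]; exact hx)
  rw [hone] at hdvd
  exact (Fact.out : p.Prime).one_lt.ne' (Nat.dvd_one.1 hdvd)

theorem exists_orth (v : Fin 3 → F) : ∃ l : Fin 3 → F, l ≠ 0 ∧ l ⬝ᵥ v = 0 := by
  by_cases h : v 0 = 0
  · refine ⟨Pi.single 0 1, by simp, ?_⟩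
    rw [single_dotProduct, one_mul, h]
  · refine ⟨![v 1, - v 0, 0], ?_, ?_⟩
    · intro h1
      have := congrFun h1 1
      simp at this
      exact h this
    · simp [dotProduct, Fin.sum_univ_three]
      ring

theorem case_inner (h2 : (2 : F) ≠ 0) {x y : Cor F} (hF : ∀ x : F, x ^ 3 = 1 → x = 1)
    {v φ : Fin 3 → F} (hx : IsHom x v φ) (hQ : Q y x) : y = 1 := by
  obtain ⟨hs, hφv, hm⟩ := hx
  have hv : v ≠ 0 := by
    rintro rfl
    simp at hφv
  obtain ⟨l, hl, hlv⟩ := exists_orth v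
  have hx' : Is x false ((2 : F) • vecMulVec v φ - 1) := ⟨hs, hm⟩
  obtain ⟨g, hg⟩ : ∃ g : SL3 F, (g : M3 F) = 1 + vecMulVec v l := ⟨⟨_, det_trv hlv⟩, rfl⟩
  have hgl : (-l) ⬝ᵥ v = 0 := by rw [neg_dotProduct, hlv, neg_zero]
  have hg1 : (g : M3 F) * (1 + vecMulVec v (-l)) = 1 := by
    rw [hg, vecMulVec_neg, mul_add, mul_one, mul_neg, add_mul, one_mul, vecMulVec_mul_vecMulVec,
      hlv, zero_smul, vecMulVec_zero, add_zero]
    abel
  have hgi : Is (inn g)⁻¹ false (1 + vecMulVec v (-l)) := by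
    have := (is_inn g).inv_inner
    rwa [adj_unique g.2 hg1] at this
  have h1 : Is (inn g * x * (inn g)⁻¹ * x) false
      ((1 + vecMulVec v l) * ((2 : F) • vecMulVec v φ - 1) * (1 + vecMulVec v (-l))
        * ((2 : F) • vecMulVec v φ - 1)) := by
    have a0 := is_inn g
    rw [hg] at a0
    exact ((a0.mul_inner hx').mul_inner hgi).mul_inner hx'
  have e : (1 + vecMulVec v l) * ((2 : F) • vecMulVec v φ - 1) * (1 + vecMulVec v (-l))
        * ((2 : F) • vecMulVec v φ - 1) = 1 + vecMulVec v ((2 : F) • l) := by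
    have p1 : vecMulVec v φ * vecMulVec v φ = vecMulVec v φ := by
      rw [vecMulVec_mul_vecMulVec, hφv, one_smul]
    have p2 : vecMulVec v l * vecMulVec v φ = 0 := by
      rw [vecMulVec_mul_vecMulVec, hlv, zero_smul, vecMulVec_zero]
    have p3 : vecMulVec v φ * vecMulVec v l = vecMulVec v l := by
      rw [vecMulVec_mul_vecMulVec, hφv, one_smul]
    have p4 : vecMulVec v l * vecMulVec v l = 0 := by
      rw [vecMulVec_mul_vecMulVec, hlv, zero_smul, vecMulVec_zero]
    rw [vecMulVec_neg, vecMulVec_smul]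
    generalize vecMulVec v φ = A at *
    generalize vecMulVec v l = L at *
    have s1 : (1 + L) * ((2 : F) • A - 1) = (2 : F) • A - 1 - L := by
      rw [mul_sub, mul_one, mul_smul_comm, add_mul, one_mul, p2, add_zero]
      abel
    have s2 : ((2 : F) • A - 1 - L) * (1 + -L) = (2 : F) • A - 1 - (2 : F) • L := by
      rw [mul_add, mul_one, mul_neg, sub_mul, sub_mul, one_mul, smul_mul_assoc, p3, p4]
      module
    have s3 : ((2 : F) • A - 1 - (2 : F) • L) * ((2 : F) • A - 1) = 1 + (2 : F) • L := by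
      rw [mul_sub, mul_one, mul_smul_comm, sub_mul, sub_mul, one_mul, smul_mul_assoc,
        smul_mul_assoc, p1, p2]
      module
    rw [s1, s2, s3]
  rw [e] at h1
  have hQ1 : Q y (inn g * x * (inn g)⁻¹ * x) := Q_mul (Q_conj g hQ) hQ
  refine final hF hv (smul_ne_zero h2 hl) ?_ h1 hQ1
  rw [smul_dotProduct, hlv, smul_zero]

theorem case_outer [Finite F] (h2 : (2 : F) ≠ 0) {x y : Cor F}
    (hF : ∀ x : F, x ^ 3 = 1 → x = 1) (hs : x.s = true)
    (hsym : (x.m : M3 F).transpose = (x.m : M3 F)) (hQ : Q y x) : y = 1 := by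
  have hx : Is x true (x.m : M3 F) := ⟨hs, rfl⟩
  have hdet : (x.m : M3 F).det = 1 := x.m.2
  generalize (x.m : M3 F) = B at *
  obtain ⟨v, hv, hiso⟩ := exists_iso B
  set l : Fin 3 → F := B *ᵥ v with hldef
  have hBl : (adjugate B) *ᵥ l = v := by
    rw [hldef, mulVec_mulVec, adj_mul_self hdet, one_mulVec]
  have hl : l ≠ 0 := by
    intro h
    rw [h, mulVec_zero] at hBl
    exact hv hBl.symm
  have hlv : l ⬝ᵥ v = 0 := by rw [dotProduct_comm]; exact hiso
  obtain ⟨P, hP⟩ : ∃ g : SL3 F, (g : M3 F) = 1 + vecMulVec v l := ⟨⟨_, det_trv hlv⟩, rfl⟩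
  have h1 := hx.cj_outer P
  have h3 : Is (x * cj P x) false
      ((adjugate B).transpose * ((P : M3 F).transpose * B * (P : M3 F))) := by
    simpa using hx.mul_outer h1
  have hadj : (adjugate B).transpose = adjugate B := by rw [adjugate_transpose, hsym]
  have hvB : v ᵥ* B = l := by rw [← hsym, vecMul_transpose]
  have e : (adjugate B).transpose * ((P : M3 F).transpose * B * (P : M3 F))
      = 1 + vecMulVec v ((2 : F) • l) := by
    rw [hadj, hP, transpose_add, transpose_one, transpose_vecMulVec]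
    have e1 : (1 + vecMulVec l v) * B * (1 + vecMulVec v l) = B + (2 : F) • vecMulVec l l := by
      rw [add_mul, one_mul, vecMulVec_mul, hvB, add_mul, mul_add, mul_add, mul_one, mul_one,
        mul_vecMulVec, ← hldef, vecMulVec_mul_vecMulVec, hlv]
      simp only [zero_smul, vecMulVec_zero]
      module
    rw [e1, mul_add, adj_mul_self hdet, mul_smul_comm, mul_vecMulVec, hBl, vecMulVec_smul]
  rw [e] at h3
  have hcj : cj P x = inn P⁻¹ * x * (inn P⁻¹)⁻¹ := by
    have : (inn P)⁻¹ = inn P⁻¹ := by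
      rw [inv_eq_iff_mul_eq_one, ← inn_mul, mul_inv_cancel]
      rfl
    rw [cj, this, ← this, inv_inv]
  have hQ1 : Q y (x * cj P x) := by
    rw [hcj]
    exact Q_mul hQ (Q_conj _ hQ)
  refine final hF hv (smul_ne_zero h2 hl) ?_ h3 hQ1
  rw [smul_dotProduct, hlv, smul_zero]

theorem nc_thm (hINV : INVStmt) : NCStmt := by
  intro F _ _ hF x y hx1 hy1 hx hy
  by_contra hcon
  push Not at hcon
  have hQ : Q y x := hcon
  rcases hINV F hF.1 x hx1 hx with ⟨v, φ, h⟩ | ⟨hs, hsym⟩
  · exact hy1 (case_inner hF.1 hF.2 h hQ)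
  · exact hy1 (case_outer hF.1 hF.2 hs hsym hQ)

end Pool.Agent.H26.SCG
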